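import Mathlib
import Pool.Agent.H.MP_0e199b_al.A

set_option autoImplicit false

namespace Pool.Agent.Results.MP_0e199b_al.Three

open Pool.Agent.H.MP_0e199b_al

def IsOmega {n : ℕ} (A : Matrix (Fin n) (Fin n) ℂ) : Prop :=
  ∀ (k m : ℕ) (α : Fin (k + 1) → Fin n) (β : Fin (m + 1) → Fin n), StrictMono α → StrictMono β →
    Set.range β ⊆ Set.range α →
    ∃ a b : ℝ, IsLeast {x : ℝ | (x : ℂ) ∈ spectrum ℂ (A.submatrix α α)} a ∧
      IsLeast {x : ℝ | (x : ℂ) ∈ spectrum ℂ (A.submatrix β β)} b ∧ a ≤ b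

theorem result :
    IsGreatest {N : ℕ | ∀ n : ℕ, 1 ≤ n → n ≤ N → ∀ (A : Matrix (Fin n) (Fin n) ℂ) (l : ℝ),
      IsOmega A → IsLeast {x : ℝ | (x : ℂ) ∈ spectrum ℂ A} l → 0 ≤ l →
      ∀ z ∈ spectrum ℂ A, z ≠ l → |(z - l).arg| ≤ Real.pi / 2 - Real.pi / n} 3 := by
  refine ⟨fun n h1 h3 A l h hl _ z hz hne => varga h1 h3 h hl z hz hne, fun N hN => ?_⟩
  by_contra hc
  obtain ⟨l, hl, hl0⟩ := B_least
  obtain ⟨z, hz, hz'⟩ := B_bad
  have hne : z ≠ l := by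
    rintro rfl
    simp at hz'
    linarith
  have := hN 4 (by norm_num) (by omega) B l B_omega hl hl0 z hz hne
  have := im_le_re (z - l) (this.trans_eq (by push_cast; ring))
  simp at this
  linarith

end Pool.Agent.Results.MP_0e199b_al.Three
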